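import Mathlib

/-!
# Filtrations by the eigenvalues of an integral endomorphism
-/

namespace Pool.Agent.Helper68.NP

open LinearMap Module.End

set_option linter.unusedSectionVars false

section filt

variable {K W : Type*} [Field K] [CharZero K] [AddCommGroup W] [Module K W]

/-- filtration by eigenvalue -/
def Fl (H : Module.End K W) (j : ℤ) : Submodule K W :=
  ⨆ (n : ℤ) (_ : n ≤ j), eigenspace H (n : K)

lemma eig_le_Fl (H : Module.End K W) {n j : ℤ} (h : n ≤ j) : eigenspace H (n : K) ≤ Fl H j :=
  le_iSup₂_of_le n h le_rfl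

lemma Fl_mono (H : Module.End K W) {i j : ℤ} (h : i ≤ j) : Fl H i ≤ Fl H j :=
  iSup₂_le fun _ hn => eig_le_Fl H (hn.trans h)

lemma Fl_succ (H : Module.End K W) (j : ℤ) : Fl H j = Fl H (j - 1) ⊔ eigenspace H (j : K) := by
  apply le_antisymm
  · refine iSup₂_le fun n hn => ?_
    rcases hn.eq_or_lt with rfl | hlt
    · exact le_sup_right
    · exact (eig_le_Fl H (by omega)).trans le_sup_left
  · exact sup_le (Fl_mono H (by omega)) (eig_le_Fl H le_rfl)

lemma Fl_disj (H : Module.End K W) (j : ℤ) : Disjoint (Fl H (j - 1)) (eigenspace H (j : K)) := by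
  refine ((eigenspaces_iSupIndep H (j : K)).mono_right ?_).symm
  refine iSup₂_le fun n hn => le_iSup₂_of_le (n : K) ?_ le_rfl
  intro h
  have : n = j := by exact_mod_cast h
  omega

lemma eq_zero_of_Fl (H : Module.End K W) {j : ℤ} {w : W} (h1 : w ∈ Fl H (j - 1))
    (h2 : w ∈ eigenspace H (j : K)) : w = 0 :=
  Submodule.disjoint_def.1 (Fl_disj H j) w h1 h2

variable [FiniteDimensional K W]

lemma exists_bound (H : Module.End K W) : ∃ N : ℤ, ∀ n : ℤ, eigenspace H (n : K) ≠ ⊥ →
    -N < n ∧ n ≤ N := by
  have hfin : Set.Finite {n : ℤ | eigenspace H (n : K) ≠ ⊥} := by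
    exact Set.Finite.preimage (f := fun n : ℤ => (n : K)) (Int.cast_injective.injOn)
      (finite_hasEigenvalue H)
  obtain ⟨a, ha⟩ := hfin.bddAbove
  obtain ⟨b, hb⟩ := hfin.bddBelow
  refine ⟨max a (1 - b), fun n hn => ⟨?_, ?_⟩⟩
  · have := hb hn
    have h2 : 1 - b ≤ max a (1 - b) := le_max_right _ _
    omega
  · have := ha hn
    exact this.trans (le_max_left _ _)

lemma exists_bound' (H : Module.End K W) (hint : ⨆ n : ℤ, eigenspace H (n : K) = ⊤) :
    ∃ N : ℤ, Fl H (-N) = ⊥ ∧ Fl H N = ⊤ := by
  obtain ⟨N, hN⟩ := exists_bound H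
  refine ⟨N, ?_, ?_⟩
  · rw [eq_bot_iff]
    refine iSup₂_le fun n hn => ?_
    by_contra hcon
    have := hN n (fun h => hcon h.le)
    omega
  · rw [eq_top_iff, ← hint]
    refine iSup_le fun n => ?_
    by_cases h : eigenspace H (n : K) = ⊥
    · rw [h]; exact bot_le
    · exact eig_le_Fl H (hN n h).2

/-- every vector is in the filtration, induction principle -/
lemma Fl_induction (H : Module.End K W) (hint : ⨆ n : ℤ, eigenspace H (n : K) = ⊤)
    (p : ℤ → Prop) (h0 : ∀ j, Fl H j = ⊥ → p j) (hs : ∀ j, p (j - 1) → p j) (j : ℤ) : p j := by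
  obtain ⟨N, hN, -⟩ := exists_bound' H hint
  by_cases hj : j ≤ -N
  · apply h0
    rw [eq_bot_iff, ← hN]
    exact Fl_mono H hj
  · have hj : -N ≤ j := by omega
    induction j, hj using Int.leInduction with
    | base => exact h0 _ hN
    | succ n hn ih =>
      by_cases h : n ≤ -N
      · have : n = -N := by omega
        subst this
        exact hs _ (by rw [add_sub_cancel_right]; exact h0 _ hN)
      · exact hs _ (by rw [add_sub_cancel_right]; exact ih h)

lemma finrank_le_aux {E F D : Submodule K W} (h : E ≤ D ⊔ F) :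
    Module.finrank K E ≤ Module.finrank K (E ⊓ F : Submodule K W) + Module.finrank K D := by
  have h1 := Submodule.finrank_sup_add_finrank_inf_eq E F
  have h2 := Submodule.finrank_sup_add_finrank_inf_eq D F
  have h3 : Module.finrank K (E ⊔ F : Submodule K W) ≤
      Module.finrank K (D ⊔ F : Submodule K W) :=
    Submodule.finrank_mono (sup_le h le_sup_right)
  omega

lemma finrank_disj {A B C : Submodule K W} (h : Disjoint A B) (hA : A ≤ C) (hB : B ≤ C) :
    Module.finrank K A + Module.finrank K B ≤ Module.finrank K C := by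
  have h7 := Submodule.finrank_sup_add_finrank_inf_eq A B
  rw [h.eq_bot, finrank_bot, add_zero] at h7
  rw [← h7]
  exact Submodule.finrank_mono (sup_le hA hB)

/-- the dimension lemma -/
lemma finrank_le_of_top (H : Module.End K W) (hint : ⨆ n : ℤ, eigenspace H (n : K) = ⊤)
    (E D : Submodule K W)
    (hED : ∀ w ∈ E, ∀ (j : ℤ), ∀ a ∈ eigenspace H (j : K), w - a ∈ Fl H (j - 1) → a ∈ D) :
    Module.finrank K E ≤ Module.finrank K D := by
  have key : ∀ j : ℤ, Module.finrank K (E ⊓ Fl H j : Submodule K W) ≤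
      Module.finrank K (D ⊓ Fl H j : Submodule K W) := by
    refine Fl_induction H hint _ ?_ ?_
    · intro j hj
      rw [hj, inf_bot_eq, inf_bot_eq]
    · intro j ih
      have h4 : E ⊓ Fl H j ≤ (D ⊓ eigenspace H (j : K)) ⊔ Fl H (j - 1) := by
        rintro w ⟨hwE, hwF⟩
        have hwF' : w ∈ Fl H j := hwF
        rw [Fl_succ, Submodule.mem_sup] at hwF'
        obtain ⟨y, hy, a, ha, rfl⟩ := hwF'
        rw [add_comm]
        exact Submodule.add_mem_sup ⟨hED _ hwE j a ha (by simpa using hy), ha⟩ hy
      have h5 := finrank_le_aux h4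
      rw [inf_assoc, inf_eq_right.2 (Fl_mono H (show j - 1 ≤ j by omega))] at h5
      have h6 : Disjoint (D ⊓ Fl H (j - 1)) (D ⊓ eigenspace H (j : K)) :=
        (Fl_disj H j).mono inf_le_right inf_le_right
      have h7 := finrank_disj h6 (inf_le_inf_left D (Fl_mono H (show j - 1 ≤ j by omega)))
        (inf_le_inf_left D (eig_le_Fl H le_rfl))
      omega
  obtain ⟨N, -, hN⟩ := exists_bound' H hint
  have := key N
  rwa [hN, inf_top_eq, inf_top_eq] at this

/-- top components stay in an invariant subspace -/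
lemma top_mem (H : Module.End K W) (hint : ⨆ n : ℤ, eigenspace H (n : K) = ⊤)
    (s : Submodule K W) (hs : ∀ x ∈ s, H x ∈ s) {x a : W} {i : ℤ} (hx : x ∈ s)
    (ha : a ∈ eigenspace H (i : K)) (hxa : x - a ∈ Fl H (i - 1)) : a ∈ s := by
  have key : ∀ j : ℤ, j < i → ∀ x ∈ s, x - a ∈ Fl H j → a ∈ s := by
    refine Fl_induction H hint _ ?_ ?_
    · intro j hj hji x hx hxa
      rw [hj, Submodule.mem_bot, sub_eq_zero] at hxa
      rwa [← hxa]
    · intro j ih hji x hx hxa
      rw [Fl_succ, Submodule.mem_sup] at hxa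
      obtain ⟨y, hy, b, hb, hyb⟩ := hxa
      have hij : ((i : K) - j) ≠ 0 := by
        rw [sub_ne_zero]
        intro h
        have : i = j := by exact_mod_cast h
        omega
      rw [mem_eigenspace_iff] at ha hb
      have hHy : H y ∈ Fl H (j - 1) := by
        have : Fl H (j - 1) ≤ (Fl H (j - 1)).comap H := by
          refine iSup₂_le fun n hn z hz => ?_
          rw [Submodule.mem_comap, mem_eigenspace_iff.1 hz]
          exact Submodule.smul_mem _ _ (eig_le_Fl H hn hz)
        exact this hy
      refine ih (by omega) (((i : K) - j)⁻¹ • (H x - (j : K) • x))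
        (s.smul_mem _ (s.sub_mem (hs x hx) (s.smul_mem _ hx))) ?_
      have hx' : x = a + (y + b) := by rw [hyb]; abel
      have e : ((i : K) - j)⁻¹ • (H x - (j : K) • x) - a =
          ((i : K) - j)⁻¹ • (H y - (j : K) • y) := by
        rw [hx', map_add, map_add, ha, hb]
        have : (i : K) • a + (H y + (j : K) • b) - (j : K) • (a + (y + b)) =
            ((i : K) - j) • a + (H y - (j : K) • y) := by module
        rw [this, smul_add, smul_smul, inv_mul_cancel₀ hij, one_smul]
        abel
      rw [e]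
      exact Submodule.smul_mem _ _ (Submodule.sub_mem _ hHy (Submodule.smul_mem _ _ hy))
  exact key (i - 1) (by omega) x hx hxa

end filt

section ad

variable {K V : Type*} [Field K] [CharZero K] [AddCommGroup V] [Module K V]

/-- the commutator with `h` -/
def adE (h : Module.End K V) : Module.End K (Module.End K V) :=
  LinearMap.mulLeft K h - LinearMap.mulRight K h

lemma adE_apply (h X : Module.End K V) : adE h X = h * X - X * h := rfl

lemma mem_eig_ad {h X : Module.End K V} {c : K} :
    X ∈ eigenspace (adE h) c ↔ h * X - X * h = c • X := by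
  rw [mem_eigenspace_iff, adE_apply]

lemma eig_apply {h X : Module.End K V} {i j : ℤ} (hX : X ∈ eigenspace (adE h) (i : K)) {v : V}
    (hv : v ∈ eigenspace h (j : K)) : X v ∈ eigenspace h ((i + j : ℤ) : K) := by
  rw [mem_eig_ad] at hX
  rw [mem_eigenspace_iff] at hv ⊢
  have h1 := congrArg (fun f => f v) hX
  simp only [LinearMap.sub_apply, Module.End.mul_apply, LinearMap.smul_apply, hv, map_smul] at h1
  rw [sub_eq_iff_eq_add] at h1
  rw [h1]
  push_cast
  module

lemma Fl_apply {h X : Module.End K V} {i j : ℤ} (hX : X ∈ Fl (adE h) i) {v : V}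
    (hv : v ∈ Fl h j) : X v ∈ Fl h (i + j) := by
  have h1 : Fl h j ≤ (Fl h (i + j)).comap X := by
    refine iSup₂_le fun n hn v hv => ?_
    have h2 : Fl (adE h) i ≤ (Fl h (i + j)).comap (LinearMap.applyₗ v) := by
      refine iSup₂_le fun m hm X hX => ?_
      exact eig_le_Fl h (by omega) (eig_apply hX hv)
    exact h2 hX
  exact h1 hv

variable [FiniteDimensional K V]

lemma ad_integral {h : Module.End K V} (hint : ⨆ n : ℤ, eigenspace h (n : K) = ⊤) :
    ⨆ n : ℤ, eigenspace (adE h) (n : K) = ⊤ := by
  classical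
  have hind : iSupIndep fun n : ℤ => eigenspace h (n : K) :=
    (eigenspaces_iSupIndep h).comp (f := fun n : ℤ => (n : K)) Int.cast_injective
  have hI : DirectSum.IsInternal fun n : ℤ => eigenspace h (n : K) :=
    (DirectSum.isInternal_submodule_iff_iSupIndep_and_iSup_eq_top _).2 ⟨hind, hint⟩
  let b := hI.collectedBasis (fun n => Module.finBasis K (eigenspace h (n : K)))
  have : Fintype (Σ n : ℤ, Fin (Module.finrank K (eigenspace h (n : K)))) :=
    FiniteDimensional.fintypeBasisIndex b
  have hb : ∀ x, h (b x) = (x.1 : K) • b x := fun x =>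
    mem_eigenspace_iff.1 (hI.collectedBasis_mem _ x)
  rw [eq_top_iff]
  intro X _
  have hcoord : ∀ x, (b.coord x).comp h = (x.1 : K) • b.coord x := by
    intro x
    apply b.ext
    intro y
    rw [LinearMap.comp_apply, hb, map_smul, LinearMap.smul_apply]
    by_cases hxy : x = y
    · rw [hxy]
    · simp [Module.Basis.coord_apply, Finsupp.single_apply, Ne.symm hxy]
  have hE : ∀ x y, (b.coord y).smulRight (b x) ∈ ⨆ n : ℤ, eigenspace (adE h) (n : K) := by
    intro x y
    refine Submodule.mem_iSup_of_mem (x.1 - y.1) ?_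
    rw [mem_eig_ad]
    ext v
    have h1 := congrArg (fun f => f v) (hcoord y)
    simp only [LinearMap.comp_apply, LinearMap.smul_apply] at h1
    simp only [LinearMap.sub_apply, Module.End.mul_apply, LinearMap.smulRight_apply, map_smul, hb,
      LinearMap.smul_apply, h1]
    push_cast
    module
  have hX : X = ∑ y, ∑ x, (b.coord x (X (b y))) • (b.coord y).smulRight (b x) := by
    apply b.ext
    intro z
    rw [LinearMap.sum_apply, Finset.sum_eq_single z]
    · rw [LinearMap.sum_apply]
      have := b.sum_repr (X (b z))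
      rw [← this]
      refine Finset.sum_congr rfl fun x _ => ?_
      simp [Module.Basis.coord_apply]
    · intro y _ hy
      rw [LinearMap.sum_apply]
      refine Finset.sum_eq_zero fun x _ => ?_
      simp [Module.Basis.coord_apply, Finsupp.single_apply, Ne.symm hy]
    · intro h; exact absurd (Finset.mem_univ _) h
  rw [hX]
  exact Submodule.sum_mem _ fun y _ => Submodule.sum_mem _ fun x _ => Submodule.smul_mem _ _ (hE x y)

end ad

end Pool.Agent.Helper68.NP
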