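import Pool.Agent.Helper66.OTR.Gsp
import Pool.Agent.Helper68.NP.Filt

/-!
# A half-idempotent commuting with an integral element (degeneration argument)
-/

namespace Pool.Agent.Helper68.NP

open LinearMap Module.End Pool.Agent.Helper66.OTR

set_option linter.unusedSectionVars false

variable {K V : Type*} [Field K] [CharZero K] [AddCommGroup V] [Module K V]
  [FiniteDimensional K V] {ψ : LinearMap.BilinForm K V} {s : Submodule K (Module.End K V)}

/-- the stabiliser of a subspace -/
def Stab (s : Submodule K (Module.End K V)) (U : Submodule K V) :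
    Submodule K (Module.End K V) where
  carrier := {x | x ∈ s ∧ ∀ u ∈ U, x u ∈ U}
  zero_mem' := ⟨s.zero_mem, fun u _ => by simp⟩
  add_mem' := fun h h' => ⟨s.add_mem h.1 h'.1, fun u hu => U.add_mem (h.2 u hu) (h'.2 u hu)⟩
  smul_mem' := fun c _ h => ⟨s.smul_mem c h.1, fun u hu => U.smul_mem c (h.2 u hu)⟩

/-- the elements which kill `U` and map into `U` -/
def Nil (s : Submodule K (Module.End K V)) (U : Submodule K V) :
    Submodule K (Module.End K V) where
  carrier := {x | x ∈ s ∧ (∀ u ∈ U, x u = 0) ∧ ∀ v, x v ∈ U}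
  zero_mem' := ⟨s.zero_mem, fun u _ => by simp, fun v => by simp⟩
  add_mem' := fun h h' => ⟨s.add_mem h.1 h'.1,
    fun u hu => by rw [LinearMap.add_apply, h.2.1 u hu, h'.2.1 u hu, add_zero],
    fun v => U.add_mem (h.2.2 v) (h'.2.2 v)⟩
  smul_mem' := fun c _ h => ⟨s.smul_mem c h.1,
    fun u hu => by rw [LinearMap.smul_apply, h.2.1 u hu, smul_zero],
    fun v => U.smul_mem c (h.2.2 v)⟩

/-- the elements acting as a scalar `c` on `U` and as `-c` modulo `U` -/
def Sc (s : Submodule K (Module.End K V)) (U : Submodule K V) :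
    Submodule K (Module.End K V) where
  carrier := {x | x ∈ s ∧ ∃ c : K, (∀ u ∈ U, x u = c • u) ∧ ∀ v, x v + c • v ∈ U}
  zero_mem' := ⟨s.zero_mem, 0, fun u _ => by simp, fun v => by simp⟩
  add_mem' := by
    rintro x y ⟨hx, c, h1, h2⟩ ⟨hy, d, h3, h4⟩
    refine ⟨s.add_mem hx hy, c + d, fun u hu => ?_, fun v => ?_⟩
    · rw [LinearMap.add_apply, h1 u hu, h3 u hu, add_smul]
    · have := U.add_mem (h2 v) (h4 v)
      convert this using 1
      rw [LinearMap.add_apply]
      module
  smul_mem' := by
    rintro e x ⟨hx, c, h1, h2⟩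
    refine ⟨s.smul_mem e hx, e * c, fun u hu => ?_, fun v => ?_⟩
    · rw [LinearMap.smul_apply, h1 u hu, smul_smul]
    · have := U.smul_mem e (h2 v)
      convert this using 1
      rw [LinearMap.smul_apply]
      module

lemma Nil_le_Sc (U : Submodule K V) : Nil s U ≤ Sc s U := by
  rintro x ⟨h1, h2, h3⟩
  exact ⟨h1, 0, fun u hu => by rw [h2 u hu, zero_smul], fun v => by
    rw [zero_smul, add_zero]; exact h3 v⟩

/-- trace orthogonality of `Nil` and `Stab` -/
lemma trace_nil_stab {U : Submodule K V} {x y : Module.End K V} (hx : x ∈ Nil s U)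
    (hy : y ∈ Stab s U) : trace K V (x * y) = 0 := by
  apply Setup.trace_nilp
  ext v
  simp only [Module.End.mul_apply, LinearMap.zero_apply]
  exact hx.2.1 _ (hy.2 _ (hx.2.2 _))

section form

variable [IsAlgClosed K]

lemma tf_nondeg (S : Setup ψ s) : (Setup.tf s).Nondegenerate := by
  rw [LinearMap.BilinForm.nondegenerate_iff_ker_eq_bot, LinearMap.ker_eq_bot']
  intro X hX
  ext1
  refine S.nondeg X.2 (fun Y hY => ?_)
  exact congrArg (fun f => f ⟨Y, hY⟩) hX

lemma tf_refl : (Setup.tf s).IsRefl := by
  intro X Y h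
  rw [Setup.tf_apply] at h ⊢
  rw [trace_mul_comm]; exact h

lemma finrank_comap {A : Submodule K (Module.End K V)} (hA : A ≤ s) :
    Module.finrank K (A.comap s.subtype) = Module.finrank K A :=
  LinearEquiv.finrank_eq (Submodule.comapSubtypeEquivOfLe hA)

lemma finrank_add_le (S : Setup ψ s) {A B : Submodule K (Module.End K V)} (hA : A ≤ s)
    (hB : B ≤ s) (h : ∀ a ∈ A, ∀ b ∈ B, trace K V (a * b) = 0) :
    Module.finrank K A + Module.finrank K B ≤ Module.finrank K s := by
  have h1 := LinearMap.BilinForm.finrank_orthogonal (tf_nondeg S) (A.comap s.subtype)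
  have h2 : B.comap s.subtype ≤ (Setup.tf s).orthogonal (A.comap s.subtype) := by
    intro b hb
    rw [LinearMap.BilinForm.mem_orthogonal_iff]
    intro a ha
    exact h _ ha _ hb
  have h3 := Submodule.finrank_mono h2
  have h4 := Submodule.finrank_le (A.comap s.subtype)
  rw [h1, finrank_comap hA, finrank_comap hB] at h3
  rw [finrank_comap hA] at h4
  omega

lemma finrank_le_add (S : Setup ψ s) {A B : Submodule K (Module.End K V)} (hA : A ≤ s)
    (hB : B ≤ s) (h : ∀ b ∈ s, (∀ a ∈ A, trace K V (a * b) = 0) → b ∈ B) :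
    Module.finrank K s ≤ Module.finrank K A + Module.finrank K B := by
  have h1 := LinearMap.BilinForm.finrank_orthogonal (tf_nondeg S) (A.comap s.subtype)
  have h2 : (Setup.tf s).orthogonal (A.comap s.subtype) ≤ B.comap s.subtype := by
    intro b hb
    rw [LinearMap.BilinForm.mem_orthogonal_iff] at hb
    exact h _ b.2 fun a ha => hb ⟨a, hA ha⟩ ha
  have h3 := Submodule.finrank_mono h2
  rw [h1, finrank_comap hA, finrank_comap hB] at h3
  omega

/-- `Stab` of the `1/2`-eigenspace of a half is the orthogonal of `Nil` -/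
lemma stab_of_orth (S : Setup ψ s) {g : Module.End K V} (hg : g ∈ s)
    (hgg : g * g = (4 : K)⁻¹ • 1) {x : Module.End K V} (hx : x ∈ s)
    (h : ∀ a ∈ Nil s (LinearMap.range ((2 : K)⁻¹ • (1 : Module.End K V) + g)),
      trace K V (a * x) = 0) :
    x ∈ Stab s (LinearMap.range ((2 : K)⁻¹ • (1 : Module.End K V) + g)) := by
  have h0 : plus (-g) x = 0 := by
    refine S.nondeg (S.closed.plus_mem (half_neg hgg) (s.neg_mem hg) hx) fun z hz => ?_
    have h1 : plus g z ∈ Nil s (LinearMap.range ((2 : K)⁻¹ • (1 : Module.End K V) + g)) := by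
      refine ⟨S.closed.plus_mem hgg hg hz, ?_, ?_⟩
      · rintro _ ⟨w, rfl⟩
        rw [← Module.End.mul_apply, plus, mul_assoc, half_QP hgg, mul_zero]
        rfl
      · intro v
        rw [plus, mul_assoc, Module.End.mul_apply]
        exact ⟨_, rfl⟩
    have h2 := h _ h1
    rw [plus_neg, ← h2, trace_mul_comm]
    unfold plus
    have : z * (((2 : K)⁻¹ • 1 - g) * x * ((2 : K)⁻¹ • 1 + g)) =
        (z * (((2 : K)⁻¹ • 1 - g) * x)) * ((2 : K)⁻¹ • 1 + g) := by noncomm_ring
    rw [this, trace_mul_comm]
    congr 1
  refine ⟨hx, ?_⟩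
  rintro _ ⟨w, rfl⟩
  rw [plus_neg] at h0
  have h1 := congrArg (fun f => f w) h0
  have h2 : ((2 : K)⁻¹ • (1 : Module.End K V) - g) (x (((2 : K)⁻¹ • (1 : Module.End K V) + g) w)) =
      0 := h1
  have key : ∀ y : V, ((2 : K)⁻¹ • (1 : Module.End K V) - g) y = 0 →
      ((2 : K)⁻¹ • (1 : Module.End K V) + g) y = y := by
    intro y hy
    have h3 : ((2 : K)⁻¹ • (1 : Module.End K V) + g) y + ((2 : K)⁻¹ • (1 : Module.End K V) - g) y =
        y := by
      simp only [LinearMap.add_apply, LinearMap.sub_apply, LinearMap.smul_apply,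
        Module.End.one_apply]
      rw [add_add_sub_cancel, ← add_smul]
      norm_num
    rwa [hy, add_zero] at h3
  exact ⟨_, key _ h2⟩

end form

/-- the limit subspace -/
def Lim (h : Module.End K V) (E : Submodule K V) : Submodule K V :=
  Submodule.span K {b | ∃ j : ℤ, b ∈ eigenspace h (j : K) ∧ ∃ v ∈ E, v - b ∈ Fl h (j - 1)}

lemma mem_Lim {h : Module.End K V} {E : Submodule K V} {b v : V} {j : ℤ}
    (hb : b ∈ eigenspace h (j : K)) (hv : v ∈ E) (hvb : v - b ∈ Fl h (j - 1)) : b ∈ Lim h E :=
  Submodule.subset_span ⟨j, hb, v, hv, hvb⟩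

lemma Lim_induction {h : Module.End K V} {E : Submodule K V} {D : Submodule K V}
    (H : ∀ (j : ℤ), ∀ b ∈ eigenspace h (j : K), ∀ v ∈ E, v - b ∈ Fl h (j - 1) → b ∈ D) :
    Lim h E ≤ D := by
  rw [Lim, Submodule.span_le]
  rintro b ⟨j, hb, v, hv, hvb⟩
  exact H j b hb v hv hvb

/-- the product of tops -/
lemma top_mul {h X A : Module.End K V} {v b : V} {i j : ℤ} (hA : A ∈ eigenspace (adE h) (i : K))
    (hXA : X - A ∈ Fl (adE h) (i - 1)) (hb : b ∈ eigenspace h (j : K))
    (hvb : v - b ∈ Fl h (j - 1)) : X v - A b ∈ Fl h (i + j - 1) := by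
  have h1 : v ∈ Fl h j := by
    have := (Fl h j).add_mem (Fl_mono h (show j - 1 ≤ j by omega) hvb) (eig_le_Fl h le_rfl hb)
    rwa [sub_add_cancel] at this
  have h2 := Fl_apply hXA h1
  have h3 := Fl_apply (eig_le_Fl _ le_rfl hA) hvb
  have h4 : X v - A b = (X - A) v + A (v - b) := by
    rw [LinearMap.sub_apply, map_sub]; abel
  rw [h4]
  refine (Fl h (i + j - 1)).add_mem ?_ ?_
  · have : i - 1 + j = i + j - 1 := by omega
    rwa [this] at h2
  · have : i + (j - 1) = i + j - 1 := by omega
    rwa [this] at h3

variable [IsAlgClosed K]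

/-- a strictly lowering element has no nonzero eigenvalue -/
lemma lower_eig {h x : Module.End K V} (hint : ⨆ n : ℤ, eigenspace h (n : K) = ⊤)
    (hx : x ∈ Fl (adE h) (-1)) {c : K} (hc : c ≠ 0) {v : V} (hv : x v = c • v) : v = 0 := by
  obtain ⟨N, hN0, hN⟩ := exists_bound' h hint
  have key : ∀ j : ℤ, v ∈ Fl h j → v = 0 := by
    refine Fl_induction h hint _ ?_ ?_
    · intro j hj hvj
      rwa [hj, Submodule.mem_bot] at hvj
    · intro j ih hvj
      apply ih
      have h1 := Fl_apply hx hvj
      rw [hv] at h1
      have h2 := (Fl h (-1 + j)).smul_mem c⁻¹ h1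
      rw [smul_smul, inv_mul_cancel₀ hc, one_smul] at h2
      have : -1 + j = j - 1 := by omega
      rwa [this] at h2
  exact key N (by rw [hN]; trivial)

/-- (L1) a half commuting with `h` (degeneration argument) -/
theorem exists_comm_half (S : Setup ψ s) {h g : Module.End K V} (hh : h ∈ s)
    (hint : ⨆ n : ℤ, Module.End.eigenspace h (n : K) = ⊤)
    (hg : g ∈ s) (hgg : g * g = (4 : K)⁻¹ • 1) :
    ∃ u ∈ s, u * u = (4 : K)⁻¹ • 1 ∧ u * h = h * u := by
  by_contra hcon
  push Not at hcon
  have : Nontrivial V := S.irred.1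
  have hintA := ad_integral hint
  have hinv : ∀ x ∈ s, adE h x ∈ s := fun x hx => S.closed _ hh _ hx
  set P : Submodule K V := LinearMap.range ((2 : K)⁻¹ • (1 : Module.End K V) + g) with hP
  set U := Lim h P with hU
  -- facts on `g`
  have hPg : ∀ v ∈ P, g v = (2 : K)⁻¹ • v := by
    rintro _ ⟨w, rfl⟩
    rw [← Module.End.mul_apply, half_hP hgg, LinearMap.smul_apply]
  have hgsc : g ∈ Sc s P := by
    refine ⟨hg, (2 : K)⁻¹, hPg, fun v => ⟨v, ?_⟩⟩
    rw [LinearMap.add_apply, LinearMap.smul_apply, Module.End.one_apply, add_comm]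
  have hgnil : g ∉ Nil s P := by
    rintro ⟨-, h1, h2⟩
    have h3 : g * g = 0 := by
      ext v
      exact h1 _ (h2 v)
    rw [hgg] at h3
    obtain ⟨v, hv⟩ := exists_ne (0 : V)
    have h4 := congrArg (fun f => f v) h3
    simp only [LinearMap.smul_apply, Module.End.one_apply, LinearMap.zero_apply] at h4
    rcases smul_eq_zero.1 h4 with h5 | h5
    · norm_num at h5
    · exact hv h5
  have f1 : Module.finrank K (Nil s P) + 1 ≤ Module.finrank K (Sc s P) := by
    have : Nil s P < Sc s P := lt_of_le_of_ne (Nil_le_Sc P) fun h => hgnil (h ▸ hgsc)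
    exact Submodule.finrank_lt_finrank_of_lt this
  have f2 : Module.finrank K s ≤ Module.finrank K (Nil s P) + Module.finrank K (Stab s P) :=
    finrank_le_add S (fun _ h => h.1) (fun _ h => h.1) fun b hb h => stab_of_orth S hg hgg hb h
  have f3 : Module.finrank K (Nil s U) + Module.finrank K (Stab s U) ≤ Module.finrank K s :=
    finrank_add_le S (fun _ h => h.1) (fun _ h => h.1) fun a ha b hb => trace_nil_stab ha hb
  have f4 : Module.finrank K (Stab s P) ≤ Module.finrank K (Stab s U) := by
    refine finrank_le_of_top (adE h) hintA _ _ fun x hx i a ha hxa => ?_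
    refine ⟨top_mem (adE h) hintA s hinv hx.1 ha hxa, ?_⟩
    show U ≤ U.comap a
    refine Lim_induction fun j b hb v hv hvb => ?_
    exact mem_Lim (eig_apply ha hb) (hx.2 v hv) (top_mul ha hxa hb hvb)
  have f5 : Module.finrank K (Sc s P) ≤ Module.finrank K (Nil s U) := by
    refine finrank_le_of_top (adE h) hintA _ _ fun x hx i a ha hxa => ?_
    obtain ⟨hxs, c, hc1, hc2⟩ := hx
    have has : a ∈ s := top_mem (adE h) hintA s hinv hxs ha hxa
    have hall : ∀ D : Submodule K V, (∀ (j : ℤ), ∀ v ∈ eigenspace h (j : K), v ∈ D) → D = ⊤ := by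
      intro D hD
      rw [eq_top_iff, ← hint]
      exact iSup_le fun j v hv => hD j v hv
    by_cases hic : 0 < i ∨ c = 0
    · -- generic case
      have hcv : ∀ (j : ℤ) (v : V), v ∈ Fl h j → c • v ∈ Fl h (i + j - 1) := by
        intro j v hv
        rcases hic with h1 | h1
        · exact (Fl h _).smul_mem c (Fl_mono h (by omega) hv)
        · rw [h1, zero_smul]; exact (Fl h _).zero_mem
      refine ⟨has, ?_, ?_⟩
      · have h1 : U ≤ LinearMap.ker a := by
          refine Lim_induction fun j b hb v hv hvb => ?_
          rw [LinearMap.mem_ker]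
          have h1 := top_mul ha hxa hb hvb
          have hvj : v ∈ Fl h j := by
            have := (Fl h j).add_mem (Fl_mono h (show j - 1 ≤ j by omega) hvb)
              (eig_le_Fl h le_rfl hb)
            rwa [sub_add_cancel] at this
          have h2 := hcv j v hvj
          rw [← hc1 v hv] at h2
          have h3 := (Fl h (i + j - 1)).sub_mem h2 h1
          rw [sub_sub_cancel] at h3
          exact eq_zero_of_Fl h h3 (eig_apply ha hb)
        exact fun u hu => h1 hu
      · have h1 : U.comap a = ⊤ := by
          refine hall _ fun j v hv => ?_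
          refine mem_Lim (eig_apply ha hv) (hc2 v) ?_
          have h1 := top_mul (v := v) ha hxa hv (by rw [sub_self]; exact (Fl h _).zero_mem)
          have h2 := hcv j v (eig_le_Fl h le_rfl hv)
          have h3 := (Fl h (i + j - 1)).add_mem h1 h2
          rwa [show x v + c • v - a v = x v - a v + c • v by abel]
        intro v
        have : v ∈ U.comap a := by rw [h1]; trivial
        exact this
    · push Not at hic
      obtain ⟨hi, hc⟩ := hic
      rcases hi.eq_or_lt with hi | hi
      · -- the degree zero case: we find the half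
        exfalso
        subst hi
        have haU : ∀ u ∈ U, a u = c • u := by
          have h1 : U ≤ LinearMap.ker (a - c • (1 : Module.End K V)) := by
            refine Lim_induction fun j b hb v hv hvb => ?_
            rw [LinearMap.mem_ker, LinearMap.sub_apply, LinearMap.smul_apply, Module.End.one_apply]
            have h1 := top_mul ha hxa hb hvb
            rw [zero_add, hc1 v hv] at h1
            have h2 := (Fl h (j - 1)).smul_mem c hvb
            have h3 := (Fl h (j - 1)).sub_mem h2 h1
            rw [show c • (v - b) - (c • v - a b) = a b - c • b by module] at h3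
            have h4 : a b ∈ eigenspace h (j : K) := by
              have := eig_apply ha hb
              rwa [zero_add] at this
            exact eq_zero_of_Fl h h3 ((eigenspace h (j : K)).sub_mem h4
              ((eigenspace h (j : K)).smul_mem c hb))
          intro u hu
          have := h1 hu
          rw [LinearMap.mem_ker, LinearMap.sub_apply, LinearMap.smul_apply, Module.End.one_apply,
            sub_eq_zero] at this
          exact this
        have haV : ∀ v, a v + c • v ∈ U := by
          have h1 : U.comap (a + c • (1 : Module.End K V)) = ⊤ := by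
            refine hall _ fun j v hv => ?_
            have h4 : a v ∈ eigenspace h (j : K) := by
              have := eig_apply ha hv
              rwa [zero_add] at this
            rw [Submodule.mem_comap, LinearMap.add_apply, LinearMap.smul_apply,
              Module.End.one_apply]
            refine mem_Lim ((eigenspace h (j : K)).add_mem h4
              ((eigenspace h (j : K)).smul_mem c hv)) (hc2 v) ?_
            have h1 := top_mul (v := v) ha hxa hv (by rw [sub_self]; exact (Fl h _).zero_mem)
            rw [zero_add] at h1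
            rwa [add_sub_add_right_eq_sub]
          intro v
          have : v ∈ U.comap (a + c • (1 : Module.End K V)) := by rw [h1]; trivial
          exact this
        have haa : a * a = (c * c) • 1 := by
          ext v
          have h1 := haU _ (haV v)
          rw [map_add, map_smul, smul_add, smul_smul] at h1
          rw [Module.End.mul_apply, LinearMap.smul_apply, Module.End.one_apply]
          have h2 : a (a v) = (a (a v) + c • a v) - c • a v := by abel
          rw [h2, h1]
          abel
        refine hcon ((2 * c)⁻¹ • a) (s.smul_mem _ has) ?_ ?_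
        · rw [smul_mul_smul_comm, haa, smul_smul]
          congr 1
          field_simp
          norm_num
        · rw [mem_eig_ad, Int.cast_zero, zero_smul, sub_eq_zero] at ha
          rw [smul_mul_assoc, mul_smul_comm, ha]
      · -- negative degree
        exfalso
        have hx1 : x ∈ Fl (adE h) (-1) := by
          have h1 := (Fl (adE h) (-1)).add_mem (Fl_mono (adE h) (show i - 1 ≤ -1 by omega) hxa)
            (eig_le_Fl (adE h) (show i ≤ -1 by omega) ha)
          rwa [sub_add_cancel] at h1
        have hP0 : ∀ v ∈ P, v = 0 := fun v hv => lower_eig hint hx1 hc (hc1 v hv)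
        obtain ⟨v, hv⟩ := exists_ne (0 : V)
        apply hv
        refine lower_eig hint hx1 (neg_ne_zero.2 hc) ?_
        have := hP0 _ (hc2 v)
        rw [neg_smul]
        exact eq_neg_of_add_eq_zero_left this
  omega

end Pool.Agent.Helper68.NP
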